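import Pool.Agent.H57.SC.Targets
import Pool.Agent.H98.S4.Targets

set_option autoImplicit false

namespace Pool.Agent.H57.SC

open Finset

/-- adapter: Fleischner-Stiebitz in the form of H98.S4 -/
theorem pf_adFS (fs : Pool.Agent.H57.SC.T_FS) : Pool.Agent.H98.S4.T_FS := by
  intro W τ _ _ _ F t hdeg hac h3
  classical
  let t' : W → {i // i ∈ univ.image t} := fun w => ⟨t w, mem_image_of_mem t (mem_univ w)⟩
  have h1 : ∀ i, (univ.filter (fun w => t' w = i)).card = 3 := by
    rintro ⟨i, hi⟩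
    obtain ⟨w, -, rfl⟩ := mem_image.1 hi
    rw [← h3 w]
    congr 1
    ext x
    simp [t']
  have h2 : ∀ v, F.degree v ≤ 2 := by
    intro v
    by_contra hcon
    have hcon' : 2 < (F.neighborFinset v).card := by
      rw [SimpleGraph.card_neighborFinset_eq_degree]; omega
    obtain ⟨a, b, c, ha, hb, hc, hab, hac', hbc⟩ := Finset.two_lt_card_iff.1 hcon'
    rw [SimpleGraph.mem_neighborFinset] at ha hb hc
    rcases hdeg v a b c ha hb hc with h | h | h
    · exact hab h
    · exact hac' h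
    · exact hbc h
  have h4 : ∀ X : Finset W, X.Nonempty → ∃ v ∈ X, (X.filter (F.Adj v)).card ≤ 1 := by
    intro X hX
    obtain ⟨x, hx, h⟩ := hac X hX
    refine ⟨x, hx, card_le_one.2 ?_⟩
    intro a ha b hb
    rw [mem_filter] at ha hb
    exact h a ha.1 b hb.1 ha.2 hb.2
  obtain ⟨c, hc1, hc2⟩ := fs W {i // i ∈ univ.image t} F t' h1 h2 h4
  refine ⟨c, hc1, ?_⟩
  intro u v huv hne hc
  exact hne (hc2 u v (Subtype.ext huv) hc)

end Pool.Agent.H57.SC
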