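import Pool.Agent.H57.SC.Targets
import Pool.Agent.H98.S4.Targets

set_option autoImplicit false

namespace Pool.Agent.H57.SC

open Finset

/-- the linear order as an equivalence with `Fin` -/
theorem pf_adLO (lo : Pool.Agent.H98.S4.T_LO) : T_LO := by
  intro W _ _ F _ hdeg hX
  have hd : Pool.Agent.H98.S4.Deg2 F := by
    intro x a b c ha hb hc
    by_contra hcon
    push Not at hcon
    obtain ⟨h1, h2, h3⟩ := hcon
    have hd : F.degree x ≤ 2 := hdeg x
    have : 2 < (F.neighborFinset x).card := by
      rw [Finset.two_lt_card_iff]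
      exact ⟨a, b, c, by simpa using ha, by simpa using hb, by simpa using hc, h1, h2, h3⟩
    rw [SimpleGraph.card_neighborFinset_eq_degree] at this
    omega
  have hA : Pool.Agent.H98.S4.Acyc F := by
    intro X hne
    obtain ⟨v, hv, hc⟩ := hX X hne
    refine ⟨v, hv, ?_⟩
    intro a ha b hb h1 h2
    exact Finset.card_le_one.1 hc a (by simp [ha, h1]) b (by simp [hb, h2])
  obtain ⟨L, hnd, hmem, hadj⟩ := lo W F hd hA
  have hlen : L.length = Fintype.card W := by
    have h1 : L.toFinset = univ := by
      ext w; simp [hmem w]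
    rw [← List.toFinset_card_of_nodup hnd, h1, Finset.card_univ]
  let e0 : Fin L.length ≃ W := List.Nodup.getEquivOfForallMemList L hnd hmem
  have he0 : ∀ w, ((e0.symm w : Fin L.length) : ℕ) = L.idxOf w := by
    intro w
    rfl
  refine ⟨e0.symm.trans (finCongr hlen), ?_⟩
  have key : ∀ (u v : W) (L1 L2 : List W), L = L1 ++ u :: v :: L2 →
      L.idxOf v = L.idxOf u + 1 := by
    intro u v L1 L2 hL
    have hn : (L1 ++ u :: v :: L2).Nodup := hL ▸ hnd
    rw [List.nodup_append] at hn
    obtain ⟨_, h2, h3⟩ := hn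
    have hu : u ∉ L1 := fun h => h3 u h u (by simp) rfl
    have hv : v ∉ L1 := fun h => h3 v h v (by simp) rfl
    have huv : u ≠ v := by
      intro h
      subst h
      simp at h2
    rw [hL, List.idxOf_append_of_notMem hu, List.idxOf_append_of_notMem hv,
      List.idxOf_cons_self, List.idxOf_cons_ne _ huv, List.idxOf_cons_self]
  intro u v huv
  have e1 : ∀ w, (((e0.symm.trans (finCongr hlen)) w : Fin (Fintype.card W)) : ℕ) =
      L.idxOf w := by
    intro w
    simp only [Equiv.trans_apply, finCongr_apply, Fin.val_cast]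
    exact he0 w
  rw [e1, e1]
  obtain ⟨L1, L2, h | h⟩ := hadj u v huv
  · right
    exact key u v L1 L2 h
  · left
    exact key v u L1 L2 h

end Pool.Agent.H57.SC
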