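import Pool.Agent.H57.SC.Targets
import Pool.Agent.H98.S4.Targets

set_option autoImplicit false

namespace Pool.Agent.H57.SC

open Finset

/-- adapter: the main lemma in the form of H98.S4 -/
theorem pf_adML (ml : Pool.Agent.H57.SC.T_ML) : Pool.Agent.H98.S4.T_ML := by
  intro V β κ _ _ _ _ G f cp K B d hR hcard hcen
  classical
  obtain ⟨m0, hm0, hm0'⟩ := hcen
  -- the abstract system
  let W := {v : V // cp v ∈ K}
  let C := {c : κ // c ∈ K}
  let D := {b : β // b ∈ B}
  let cyc : W → C := fun w => ⟨cp w.1, w.2⟩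
  let blk : W → D := fun w => ⟨f w.1, hR.inB w.1 w.2⟩
  let adj : W → W → Prop := fun u v => G.Adj u.1 v.1
  have hsys : Sys cyc blk adj := by
    refine ⟨?_, ?_, ?_, ?_, ?_, ?_⟩
    · intro u v h; exact SimpleGraph.Adj.symm h
    · intro u h; exact G.loopless.irrefl _ h
    · intro u v h; exact Subtype.ext (hR.adj _ _ h)
    · intro v
      obtain ⟨a, b, hab, ha, hb⟩ := hR.cyc v.1 v.2
      have hca : cp a ∈ K := by rw [← hR.adj _ _ ha]; exact v.2
      have hcb : cp b ∈ K := by rw [← hR.adj _ _ hb]; exact v.2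
      refine ⟨⟨a, hca⟩, ⟨b, hcb⟩, ?_, ?_⟩
      · intro h; exact hab (congrArg Subtype.val h)
      · intro u
        constructor
        · intro h
          rcases hR.deg2 v.1 a b u.1 ha hb h with h' | h' | h'
          · exact absurd h' hab
          · left; exact Subtype.ext h'.symm
          · right; exact Subtype.ext h'.symm
        · rintro (h | h)
          · rw [h]; exact ha
          · rw [h]; exact hb
    · intro u v hne h hb
      have hb' : f u.1 = f v.1 := congrArg Subtype.val hb
      rcases h with h | ⟨m, h1, h2⟩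
      · exact hR.r0 _ _ h hb'
      · exact hR.r2 u.1 v.1 m.1 (fun h => hne (Subtype.ext h)) (SimpleGraph.Adj.symm h1) (SimpleGraph.Adj.symm h2) hb'
    · intro b
      have h1 : (univ.filter (fun w : W => blk w = b)).card ≤
          (univ.filter (fun u : V => f u = b.1)).card := by
        refine card_le_card_of_injOn (fun w => w.1) ?_ ?_
        · intro w hw
          simp only [coe_filter, mem_univ, true_and, Set.mem_ofPred_eq] at hw ⊢
          rw [← hw]
        · intro w _ w' _ h
          exact Subtype.ext h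
      rw [hR.blk b.1 b.2] at h1
      exact h1
  have hC : Fintype.card C = Fintype.card D + d := by
    rw [Fintype.card_coe, Fintype.card_coe, hcard]
  have hm0K : ∀ c : C, cp (m0 c.1) ∈ K := by
    intro c; rw [hm0 c.1 c.2]; exact c.2
  obtain ⟨m, Q, hm, hQ, h2, h1, h4, hd, hs⟩ := ml W C D cyc blk adj hsys d
    (fun c => ⟨m0 c.1, hm0K c⟩) hC
    (by intro c; exact Subtype.ext (hm0 c.1 c.2))
    (by
      intro b
      obtain ⟨c, hc, hcb⟩ := hm0' b.1 b.2
      exact ⟨⟨c, hc⟩, Subtype.ext hcb⟩)
  let m' : κ → V := fun c => if h : c ∈ K then (m ⟨c, h⟩).1 else m0 c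
  have hm' : ∀ c (h : c ∈ K), m' c = (m ⟨c, h⟩).1 := by
    intro c h; simp only [m', dif_pos h]
  let P : Finset β := Q.image (fun b => b.1)
  have hP : ∀ b : D, b.1 ∈ P ↔ b ∈ Q := by
    intro b
    simp only [P, mem_image]
    constructor
    · rintro ⟨b', hb', h⟩
      rw [← Subtype.ext h]; exact hb'
    · intro h; exact ⟨b, h, rfl⟩
  have hPB : P ⊆ B := by
    intro b hb
    obtain ⟨b', _, rfl⟩ := mem_image.1 hb
    exact b'.2
  have hcnt : ∀ b : D, Pool.Agent.H98.S4.cnt f K m' b.1 =
      (univ.filter (fun c => blk (m c) = b)).card := by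
    intro b
    unfold Pool.Agent.H98.S4.cnt
    symm
    refine card_bij (fun c _ => c.1) ?_ ?_ ?_
    · intro c hc
      rw [mem_filter] at hc ⊢
      refine ⟨c.2, ?_⟩
      rw [hm' c.1 c.2]
      exact congrArg Subtype.val hc.2
    · intro c _ c' _ h; exact Subtype.ext h
    · intro c hc
      rw [mem_filter] at hc
      refine ⟨⟨c, hc.1⟩, ?_, rfl⟩
      rw [mem_filter]
      refine ⟨mem_univ _, Subtype.ext ?_⟩
      have := hc.2
      rw [hm' c hc.1] at this
      exact this
  have hcpm : ∀ c : C, cp (m c).1 = c.1 := by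
    intro c; exact congrArg Subtype.val (hm c)
  -- all vertices of a block of Q are in cycles of K
  have hall : ∀ b ∈ Q, ∀ v : V, f v = b.1 → cp v ∈ K := by
    intro b hb v hv
    have he : (univ.filter (fun w : W => blk w = b)).image (fun w => w.1) =
        univ.filter (fun u : V => f u = b.1) := by
      refine eq_of_subset_of_card_le ?_ ?_
      · intro x hx
        obtain ⟨w, hw, rfl⟩ := mem_image.1 hx
        rw [mem_filter] at hw ⊢
        exact ⟨mem_univ _, congrArg Subtype.val hw.2⟩
      · rw [hR.blk b.1 b.2, card_image_of_injective _ Subtype.val_injective, h4 b hb]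
    have hv' : v ∈ univ.filter (fun u : V => f u = b.1) := by simp [hv]
    rw [← he] at hv'
    obtain ⟨w, _, rfl⟩ := mem_image.1 hv'
    exact w.2
  have hst : Pool.Agent.H98.S4.St G f cp K B m' P := by
    refine ⟨⟨?_, ?_⟩, hPB, ?_, ?_, ?_⟩
    · intro c hc
      rw [hm' c hc]; exact hcpm ⟨c, hc⟩
    · intro b hb
      have hpos : 0 < (univ.filter (fun c => blk (m c) = (⟨b, hb⟩ : D))).card := by
        by_cases hq : (⟨b, hb⟩ : D) ∈ Q
        · rw [h2 _ hq]; norm_num
        · rw [h1 _ hq]; norm_num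
      obtain ⟨c, hc⟩ := card_pos.1 hpos
      rw [mem_filter] at hc
      refine ⟨c.1, c.2, ?_⟩
      rw [hm' c.1 c.2]
      exact congrArg Subtype.val hc.2
    · intro b hb v hv
      obtain ⟨b', hb', rfl⟩ := mem_image.1 hb
      have hk := hall b' hb' v hv
      refine ⟨hk, ?_⟩
      have hbv : blk (⟨v, hk⟩ : W) ∈ Q := by
        have : blk (⟨v, hk⟩ : W) = b' := Subtype.ext hv
        rw [this]; exact hb'
      rw [hm' (cp v) hk]
      rcases hd ⟨v, hk⟩ hbv with h | h
      · left; exact congrArg Subtype.val h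
      · right; exact SimpleGraph.Adj.symm h
    · intro b hb
      obtain ⟨b', hb', rfl⟩ := mem_image.1 hb
      rw [hcnt b', h2 b' hb']
    · intro c hc a a' hne ha ha' hcon
      rw [hm' c hc] at ha ha'
      have hcm : cp (m ⟨c, hc⟩).1 = c := hcpm ⟨c, hc⟩
      have hca : cp a = c := by rw [← hR.adj _ _ ha]; exact hcm
      have hca' : cp a' = c := by rw [← hR.adj _ _ ha']; exact hcm
      have hak : cp a ∈ K := by rw [hca]; exact hc
      have hak' : cp a' ∈ K := by rw [hca']; exact hc
      have hqa : blk (⟨a, hak⟩ : W) ∈ Q := (hP _).1 hcon.1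
      have hqa' : blk (⟨a', hak'⟩ : W) ∈ Q := (hP _).1 hcon.2
      have hcy : cyc (⟨a, hak⟩ : W) = ⟨c, hc⟩ := Subtype.ext hca
      have := hs ⟨a, hak⟩ ⟨a', hak'⟩ hqa hqa' (Subtype.ext (hca.trans hca'.symm))
        (by
          rw [hcy]; intro h
          have h' : a = (m ⟨c, hc⟩).1 := congrArg Subtype.val h
          rw [← h'] at ha; exact G.loopless.irrefl _ ha)
        (by
          rw [hcy]; intro h
          have h' : a' = (m ⟨c, hc⟩).1 := congrArg Subtype.val h
          rw [← h'] at ha'; exact G.loopless.irrefl _ ha')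
      exact hne (congrArg Subtype.val this)
  refine ⟨m', P, ?_, hst, ?_, ?_⟩
  · rw [← hQ]
    exact card_image_of_injective _ Subtype.val_injective
  · intro b hb
    obtain ⟨b', hb', rfl⟩ := mem_image.1 hb
    rw [hcnt b', h2 b' hb']
  · intro b hb hbP
    have := hcnt ⟨b, hb⟩
    rw [this]
    exact h1 _ (fun h => hbP ((hP ⟨b, hb⟩).2 h))

end Pool.Agent.H57.SC
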