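import Pool.Agent.H98.S4.Targets

/-! (3A) the graph `F1` is a linear forest, MP_eb32d7_co. Written by helper19 (Pool/Agent/H19/S4/C3A.lean);
this copy differs only in two steps. -/

set_option autoImplicit false

namespace Pool.Agent.H57.SC.C3A

open Finset Pool.Agent.H98.S4

section

variable {V β : Type} {G : SimpleGraph V} {f : V → β} {P : Finset β} {F : Finset V} {d : ℕ}
  {e : Fin d ≃ {b // b ∈ P}}

theorem adj_ll {u v : {v // v ∉ F}} :
    (F1 G f P F e).Adj (Sum.inl u) (Sum.inl v) ↔ G.Adj u.1 v.1 := by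
  constructor
  · rintro (⟨u', v', h1, h2, h⟩ | ⟨u', i, h, hu, ⟨h1, h2⟩ | ⟨h1, h2⟩⟩)
    · rw [Sum.inl.inj h1, Sum.inl.inj h2]; exact h
    · exact absurd h2 Sum.inl_ne_inr
    · exact absurd h2 Sum.inl_ne_inr
  · intro h; exact Or.inl ⟨u, v, rfl, rfl, h⟩

theorem adj_lr {u : {v // v ∉ F}} {b : {b // b ∈ P}} :
    (F1 G f P F e).Adj (Sum.inl u) (Sum.inr b) ↔
      ∃ (i : Fin d) (h : i.1 + 1 < d), f u.1 = (e i).1 ∧ b = e ⟨i.1 + 1, h⟩ := by
  constructor
  · rintro (⟨u', v', h1, h2, h⟩ | ⟨u', i, h, hu, ⟨h1, h2⟩ | ⟨h1, h2⟩⟩)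
    · exact absurd h2.symm Sum.inl_ne_inr
    · refine ⟨i, h, ?_, Sum.inr.inj h2⟩
      rw [Sum.inl.inj h1]; exact hu
    · exact absurd h1.symm Sum.inl_ne_inr
  · rintro ⟨i, h, hu, rfl⟩
    exact Or.inr ⟨u, i, h, hu, Or.inl ⟨rfl, rfl⟩⟩

theorem not_adj_rr {b b' : {b // b ∈ P}} : ¬ (F1 G f P F e).Adj (Sum.inr b) (Sum.inr b') := by
  rintro (⟨u', v', h1, h2, h⟩ | ⟨u', i, h, hu, ⟨h1, h2⟩ | ⟨h1, h2⟩⟩)
  · exact absurd h1.symm Sum.inl_ne_inr
  · exact absurd h1.symm Sum.inl_ne_inr
  · exact absurd h1.symm Sum.inl_ne_inr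

/-- all right neighbours of a left vertex are equal -/
theorem lr_unique {u : {v // v ∉ F}} {b b' : {b // b ∈ P}}
    (h : (F1 G f P F e).Adj (Sum.inl u) (Sum.inr b))
    (h' : (F1 G f P F e).Adj (Sum.inl u) (Sum.inr b')) : b = b' := by
  obtain ⟨i, hi, h1, h2⟩ := adj_lr.1 h
  obtain ⟨j, hj, h3, h4⟩ := adj_lr.1 h'
  have hij : i = j := e.injective (Subtype.ext (h1.symm.trans h3))
  subst hij
  rw [h2, h4]

theorem lr_mem {u : {v // v ∉ F}} {b : {b // b ∈ P}}
    (h : (F1 G f P F e).Adj (Sum.inl u) (Sum.inr b)) : f u.1 ∈ P := by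
  obtain ⟨i, hi, h1, h2⟩ := adj_lr.1 h
  rw [h1]; exact (e i).2

theorem rl_eq {u u' : {v // v ∉ F}} {b : {b // b ∈ P}}
    (h : (F1 G f P F e).Adj (Sum.inl u) (Sum.inr b))
    (h' : (F1 G f P F e).Adj (Sum.inl u') (Sum.inr b)) : f u.1 = f u'.1 := by
  obtain ⟨i, hi, h1, h2⟩ := adj_lr.1 h
  obtain ⟨j, hj, h3, h4⟩ := adj_lr.1 h'
  have h5 : (⟨i.1 + 1, hi⟩ : Fin d) = ⟨j.1 + 1, hj⟩ := e.injective (h2.symm.trans h4)
  have h6 : i = j := Fin.ext (by have := congrArg Fin.val h5; simp at this; exact this)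
  subst h6
  rw [h1, h3]

end

theorem one_out {V β κ : Type} [DecidableEq β] {G : SimpleGraph V} {f : V → β} {cp : V → κ}
    {K : Finset κ} {P : Finset β} {F : Finset V} (h : FourS G f cp K P F) {u v w : V}
    (hu : f u ∈ P) (huF : u ∉ F) (hv : G.Adj u v) (hvF : v ∉ F) (hw : G.Adj u w) (hwF : w ∉ F) :
    v = w := by
  obtain ⟨z, hz, hadj⟩ := h.dom u hu huF
  rcases h.deg2 u v w z hv hw hadj with h1 | h1 | h1
  · exact h1
  · exact absurd (h1 ▸ hz) hvF
  · exact absurd (h1 ▸ hz) hwF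

theorem block_out {V β κ : Type} [Fintype V] [DecidableEq V] [DecidableEq β] {G : SimpleGraph V}
    {f : V → β} {cp : V → κ} {K : Finset κ} {P : Finset β} {F : Finset V} (hB : Blk4 f)
    (h : FourS G f cp K P F) {u v w : V} (hu : f u ∈ P) (huF : u ∉ F) (hvF : v ∉ F) (hwF : w ∉ F)
    (hv : f u = f v) (hw : f u = f w) : u = v ∨ u = w ∨ v = w := by
  by_contra hcon
  push Not at hcon
  obtain ⟨h1, h2, h3⟩ := hcon
  have hsub : F.filter (fun x => f x = f u) ∪ {u, v, w} ⊆ univ.filter (fun x => f x = f u) := by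
    intro x hx
    rcases mem_union.1 hx with hx | hx
    · exact mem_filter.2 ⟨mem_univ _, (mem_filter.1 hx).2⟩
    · simp only [mem_insert, mem_singleton] at hx
      rcases hx with rfl | rfl | rfl
      · simp
      · simp [hv]
      · simp [hw]
  have hdis : Disjoint (F.filter (fun x => f x = f u)) {u, v, w} := by
    rw [disjoint_left]
    intro x hx hx'
    have hxF := (mem_filter.1 hx).1
    simp only [mem_insert, mem_singleton] at hx'
    rcases hx' with rfl | rfl | rfl
    · exact huF hxF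
    · exact hvF hxF
    · exact hwF hxF
  have hc := card_le_card hsub
  rw [card_union_of_disjoint hdis, h.two _ hu, hB u, card_eq_three.2 ⟨u, v, w, h1, h2, h3, rfl⟩]
    at hc
  omega

theorem s4_3A : T_3A := by
  intro V β κ _ _ _ _ G f cp K P F d e hB h0 h
  classical
  constructor
  · -- degrees
    intro x a b c hxa hxb hxc
    rcases x with u | p
    · -- x = inl u
      rcases a with a | a <;> rcases b with b | b <;> rcases c with c | c
      · rcases h.deg2 u.1 a.1 b.1 c.1 (adj_ll.1 hxa) (adj_ll.1 hxb) (adj_ll.1 hxc) with h1 | h1 | h1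
        · exact Or.inl (congrArg Sum.inl (Subtype.ext h1))
        · exact Or.inr (Or.inl (congrArg Sum.inl (Subtype.ext h1)))
        · exact Or.inr (Or.inr (congrArg Sum.inl (Subtype.ext h1)))
      · exact Or.inl (congrArg Sum.inl (Subtype.ext (one_out h (lr_mem hxc) u.2
          (adj_ll.1 hxa) a.2 (adj_ll.1 hxb) b.2)))
      · exact Or.inr (Or.inl (congrArg Sum.inl (Subtype.ext (one_out h (lr_mem hxb) u.2
          (adj_ll.1 hxa) a.2 (adj_ll.1 hxc) c.2))))
      · exact Or.inr (Or.inr (congrArg Sum.inr (lr_unique hxb hxc)))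
      · exact Or.inr (Or.inr (congrArg Sum.inl (Subtype.ext (one_out h (lr_mem hxa) u.2
          (adj_ll.1 hxb) b.2 (adj_ll.1 hxc) c.2))))
      · exact Or.inr (Or.inl (congrArg Sum.inr (lr_unique hxa hxc)))
      · exact Or.inl (congrArg Sum.inr (lr_unique hxa hxb))
      · exact Or.inl (congrArg Sum.inr (lr_unique hxa hxb))
    · -- x = inr p
      rcases a with a | a
      swap
      · exact absurd hxa not_adj_rr
      rcases b with b | b
      swap
      · exact absurd hxb not_adj_rr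
      rcases c with c | c
      swap
      · exact absurd hxc not_adj_rr
      have ha := hxa.symm
      have hb := hxb.symm
      have hc := hxc.symm
      rcases block_out hB h (lr_mem ha) a.2 b.2 c.2 (rl_eq ha hb) (rl_eq ha hc) with h1 | h1 | h1
      · exact Or.inl (congrArg Sum.inl (Subtype.ext h1))
      · exact Or.inr (Or.inl (congrArg Sum.inl (Subtype.ext h1)))
      · exact Or.inr (Or.inr (congrArg Sum.inl (Subtype.ext h1)))
  · -- acyclic
    intro X hX
    by_contra hcon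
    push Not at hcon
    by_cases hr : ∃ p : {b // b ∈ P}, Sum.inr p ∈ X
    swap
    · -- no dummy
      obtain ⟨x0, hx0⟩ := hX
      have hl : ∀ x ∈ X, ∃ u : {v // v ∉ F}, x = Sum.inl u := by
        intro x hx
        rcases x with u | p
        · exact ⟨u, rfl⟩
        · exact absurd ⟨p, hx⟩ hr
      obtain ⟨u0, rfl⟩ := hl x0 hx0
      obtain ⟨x, hx, hxF⟩ := h.hit (univ.filter (fun v => ∃ hv : v ∉ F, Sum.inl ⟨v, hv⟩ ∈ X))
        ⟨u0.1, by simpa using ⟨u0.2, hx0⟩⟩ (by
          intro v hv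
          obtain ⟨hvF, hvX⟩ := (mem_filter.1 hv).2
          obtain ⟨a, ha, b, hb, h1, h2, h3⟩ := hcon _ hvX
          obtain ⟨a, rfl⟩ := hl a ha
          obtain ⟨b, rfl⟩ := hl b hb
          refine ⟨a.1, mem_filter.2 ⟨mem_univ _, a.2, ha⟩, b.1,
            mem_filter.2 ⟨mem_univ _, b.2, hb⟩, ?_, adj_ll.1 h1, adj_ll.1 h2⟩
          intro hab
          exact h3 (congrArg Sum.inl (Subtype.ext hab)))
      obtain ⟨hxF', _⟩ := (mem_filter.1 hx).2
      exact hxF' hxF
    · obtain ⟨p, hp⟩ := hr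
      obtain ⟨a, ha, b, hb, h1, h2, h3⟩ := hcon _ hp
      rcases a with y | a
      swap
      · exact not_adj_rr h1
      have hyP : f y.1 ∈ P := lr_mem h1.symm
      have hyK : cp y.1 ∈ K := h.inK _ hyP
      obtain ⟨z0, hz0, hyz⟩ := h.dom y.1 hyP y.2
      have hcz : cp y.1 = cp z0 := h.adj _ _ hyz
      -- the graph on the part of the cycle
      let H : SimpleGraph V :=
        { Adj := fun u v => ((∃ hu : u ∉ F, Sum.inl ⟨u, hu⟩ ∈ X) ∧ cp u = cp y.1) ∧
            ((∃ hv : v ∉ F, Sum.inl ⟨v, hv⟩ ∈ X) ∧ cp v = cp y.1) ∧ G.Adj u v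
          symm := ⟨fun u v hh => ⟨hh.2.1, hh.1, hh.2.2.symm⟩⟩
          loopless := ⟨fun u hh => G.irrefl hh.2.2⟩ }
      have hst : ∀ (w : V) (i1 i2 : Fintype (H.neighborSet w)),
          @SimpleGraph.degree V H w i1 = @SimpleGraph.degree V H w i2 := by
        intro w i1 i2
        rw [Subsingleton.elim i1 i2]
      have hHy : H.degree y.1 = 1 := by
        rw [← SimpleGraph.card_neighborFinset_eq_degree, card_eq_one]
        have hex : ∃ v : {v // v ∉ F}, Sum.inl v ∈ X ∧ G.Adj y.1 v.1 := by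
          obtain ⟨a', ha', b', hb', k1, k2, k3⟩ := hcon _ ha
          rcases a' with a' | a'
          · exact ⟨a', ha', adj_ll.1 k1⟩
          · rcases b' with b' | b'
            · exact ⟨b', hb', adj_ll.1 k2⟩
            · exact absurd (congrArg Sum.inr (lr_unique k1 k2)) k3
        obtain ⟨v, hvX, hyv⟩ := hex
        refine ⟨v.1, ?_⟩
        ext w
        rw [SimpleGraph.mem_neighborFinset, mem_singleton]
        constructor
        · rintro ⟨-, ⟨⟨hwF, hwX⟩, -⟩, hyw⟩
          exact one_out h hyP y.2 hyw hwF hyv v.2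
        · rintro rfl
          exact ⟨⟨⟨y.2, ha⟩, rfl⟩, ⟨⟨v.2, hvX⟩, (h.adj _ _ hyv).symm⟩, hyv⟩
      obtain ⟨w, hwy, hodd⟩ := H.exists_ne_odd_degree_of_exists_odd_degree y.1
        (by
          have h9 : Odd (H.degree y.1) := by rw [hHy]; exact odd_one
          exact Eq.mpr (congrArg Odd (hst y.1 _ _)) h9)
      have hodd' : Odd (H.degree w) := Eq.mpr (congrArg Odd (hst w _ _)) hodd
      by_cases hwX : (∃ hu : w ∉ F, Sum.inl ⟨w, hu⟩ ∈ X) ∧ cp w = cp y.1
      · obtain ⟨⟨hwF, hwX'⟩, hwc⟩ := hwX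
        have hwP : f w ∉ P := by
          intro hwP
          obtain ⟨z', hz', hwz⟩ := h.dom w hwP hwF
          have hcz' : cp z' = cp z0 := by rw [← h.adj _ _ hwz, hwc, hcz]
          have hzz : z' = z0 := h.one z' hz' z0 hz0 hcz' (by rw [hcz', ← hcz]; exact hyK)
          subst hzz
          exact h.star z' hz' (by rw [← hcz]; exact hyK) w y.1 hwy hwz.symm hyz.symm ⟨hwP, hyP⟩
        have hno : ∀ q : {b // b ∈ P}, ¬ (F1 G f P F e).Adj (Sum.inl ⟨w, hwF⟩) (Sum.inr q) :=
          fun q hq => hwP (lr_mem hq)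
        obtain ⟨a', ha', b', hb', k1, k2, k3⟩ := hcon _ hwX'
        rcases a' with a' | a'
        swap
        · exact hno _ k1
        rcases b' with b' | b'
        swap
        · exact hno _ k2
        have hab : a'.1 ≠ b'.1 := fun hh => k3 (congrArg Sum.inl (Subtype.ext hh))
        have k1' : G.Adj w a'.1 := adj_ll.1 k1
        have k2' : G.Adj w b'.1 := adj_ll.1 k2
        have hdeg : H.degree w = 2 := by
          rw [← SimpleGraph.card_neighborFinset_eq_degree, card_eq_two]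
          refine ⟨a'.1, b'.1, hab, ?_⟩
          ext v
          rw [SimpleGraph.mem_neighborFinset, mem_insert, mem_singleton]
          constructor
          · rintro ⟨-, -, hwv⟩
            rcases h.deg2 w v a'.1 b'.1 hwv k1' k2' with hh | hh | hh
            · exact Or.inl hh
            · exact Or.inr hh
            · exact absurd hh hab
          · rintro (rfl | rfl)
            · exact ⟨⟨⟨hwF, hwX'⟩, hwc⟩, ⟨⟨a'.2, ha'⟩, by rw [← h.adj _ _ k1', hwc]⟩, k1'⟩
            · exact ⟨⟨⟨hwF, hwX'⟩, hwc⟩, ⟨⟨b'.2, hb'⟩, by rw [← h.adj _ _ k2', hwc]⟩, k2'⟩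
        rw [hdeg] at hodd'
        exact absurd hodd' (by decide)
      · have hdeg : H.degree w = 0 := by
          rw [← SimpleGraph.card_neighborFinset_eq_degree, card_eq_zero]
          ext v
          rw [SimpleGraph.mem_neighborFinset]
          simp only [notMem_empty, iff_false]
          intro hh
          exact hwX hh.1
        rw [hdeg] at hodd'
        exact absurd hodd' (by decide)

end Pool.Agent.H57.SC.C3A
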