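import Pool.Agent.H57.SC.SBridge
import Pool.Agent.H57.SC.AdML
import Pool.Agent.H57.SC.AdFS
import Pool.Agent.H57.SC.AdLO
import Pool.Agent.H31.SC.PAR
import Pool.Agent.H31.SC.CH
import Pool.Agent.H91.SC.OR
import Pool.Agent.H42.S4.LO
import Pool.Agent.H84.SC.ALG
import Pool.Agent.H91.SC.FS
import Pool.Agent.H91.SC.UL
import Pool.Agent.H89.SC.HL
import Pool.Agent.H48.SC.ZZ
import Pool.Agent.H51.SC.US
import Pool.Agent.H71.SC.GB
import Pool.Agent.H54.SC.ST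
import Pool.Agent.H13.SC.ML
import Pool.Agent.H35.S4.A1
import Pool.Agent.H50.S4.A2
import Pool.Agent.H19.S4.BB
import Pool.Agent.H19.S4.IT
import Pool.Agent.H19.S4.HK
import Pool.Agent.H57.SC.C3A
import Pool.Agent.H84.S4.C3C
import Pool.Agent.H71.S4.BE
import Pool.Agent.H51.S4.FO
import Pool.Agent.H3.S4.KE
import Pool.Agent.H48.S4.EX

set_option autoImplicit false

/-! MP_eb32d7_co, assembly: the strong colouring theorem for maximum degree two. -/

namespace Pool.Agent.H57.SC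

/-- the main lemma -/
theorem ml57 : T_ML := by
  have hul := Pool.Agent.H91.SC.pf_ul
  exact pf_ml (Pool.Agent.H54.SC.pf_st Pool.Agent.H89.SC.pf_hl Pool.Agent.H48.SC.pf_zz hul
    (Pool.Agent.H71.SC.pf_gb Pool.Agent.H51.SC.pf_us hul))

/-- the Fleischner-Stiebitz theorem for linear forests -/
theorem fs57 : T_FS :=
  Pool.Agent.H91.SC.pf_fs
    (Pool.Agent.H91.SC.OR.pf_or (Pool.Agent.H31.SC.pf_ch Pool.Agent.H31.SC.pf_par))
    Pool.Agent.H84.SC.pf_alg (pf_adLO Pool.Agent.H42.S4.pf_lo)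

/-- blocks of four, maximum degree two -/
theorem ex57 : Pool.Agent.H98.S4.T_EX := by
  have hML : Pool.Agent.H98.S4.T_ML := pf_adML ml57
  have hFS : Pool.Agent.H98.S4.T_FS := pf_adFS fs57
  exact Pool.Agent.H48.S4.s4_EX Pool.Agent.H35.S4.s4_A1 Pool.Agent.H50.S4.s4_A2
    Pool.Agent.H19.S4.s4_BB Pool.Agent.H19.S4.s4_IT
    (Pool.Agent.H51.S4.s4_FO hML Pool.Agent.H19.S4.s4_HK Pool.Agent.H71.S4.s4_BE)
    (Pool.Agent.H84.S4.s4_3C Pool.Agent.H57.SC.C3A.s4_3A hFS) Pool.Agent.H3.S4.s4_KE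

end Pool.Agent.H57.SC
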