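import Pool.Agent.H57.SC.Targets

set_option autoImplicit false

namespace Pool.Agent.H57.SC

open Finset

/-- strictly between two numbers -/
def bw (p q x : ℕ) : Prop := (p < x ∧ x < q) ∨ (q < x ∧ x < p)

instance (p q x : ℕ) : Decidable (bw p q x) := by unfold bw; infer_instance

lemma cross (p q p' q' : ℕ) (h3 : p ≠ p') (h4 : p ≠ q') (h5 : q ≠ p')
    (h6 : q ≠ q') : ((if bw p q p' then 1 else 0) + (if bw p q q' then 1 else 0) : ZMod 2) =
      (if bw p' q' p then 1 else 0) + (if bw p' q' q then 1 else 0) := by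
  unfold bw
  split_ifs <;> first | decide | (exfalso; omega)

lemma f3a : ∀ s j : Fin 3, j ≠ s → j = s + 1 ∨ j = s + 2 := by decide
lemma f3b : ∀ s : Fin 3, s + 1 ≠ s := by decide
lemma f3c : ∀ s : Fin 3, s + 2 ≠ s := by decide

lemma btw_iff {B : Type} (pos : B × Fin 3 → ℕ) (b : B) (s : Fin 3) (x : ℕ) :
    Btw pos b s x ↔ bw (pos (b, s + 1)) (pos (b, s + 2)) x := by
  unfold Btw bw
  constructor
  · rintro ⟨j, k, hj, hk, h1, h2⟩
    rcases f3a s j hj with rfl | rfl <;> rcases f3a s k hk with rfl | rfl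
    · omega
    · left; exact ⟨h1, h2⟩
    · right; exact ⟨h1, h2⟩
    · omega
  · rintro (⟨h1, h2⟩ | ⟨h1, h2⟩)
    · exact ⟨s + 1, s + 2, f3b s, f3c s, h1, h2⟩
    · exact ⟨s + 2, s + 1, f3c s, f3b s, h1, h2⟩

lemma sum_ne (t : Fin 3) (g : Fin 3 → ZMod 2) :
    ∑ j : Fin 3, (if j ≠ t then g j else 0) = g (t + 1) + g (t + 2) := by
  fin_cases t <;> simp [Fin.sum_univ_three] <;> ring_nf

theorem pf_ch (par : T_PAR) : T_CH := by
  intro B _ _ pos hpos
  classical
  let g : B → B → Fin 3 → Fin 3 → ZMod 2 := fun b b' s j =>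
    if bw (pos (b, s + 1)) (pos (b, s + 2)) (pos (b', j)) then 1 else 0
  let Q : B → B → Fin 3 → Fin 3 → ZMod 2 := fun b b' s t =>
    ∑ j : Fin 3, (if j ≠ t then g b b' s j else 0)
  have hne : ∀ (b b' : B) (j k : Fin 3), b ≠ b' → pos (b, j) ≠ pos (b', k) := by
    intro b b' j k h h'
    exact h (congrArg Prod.fst (hpos h'))
  have hsymm : ∀ b b' s t, b ≠ b' → Q b b' s t = Q b' b t s := by
    intro b b' s t h
    simp only [Q, sum_ne, g]
    exact cross _ _ _ _ (hne _ _ _ _ h) (hne _ _ _ _ h) (hne _ _ _ _ h) (hne _ _ _ _ h)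
  have hzero : ∀ b b' s, b ≠ b' → ∑ t, Q b b' s t = 0 := by
    intro b b' s _
    have h1 : ∀ t, Q b b' s t = g b b' s (t + 1) + g b b' s (t + 2) := fun t => sum_ne t _
    rw [sum_congr rfl (fun t _ => h1 t), sum_add_distrib]
    have h2 : ∑ t : Fin 3, g b b' s (t + 1) = ∑ t, g b b' s t :=
      Equiv.sum_comp (Equiv.addRight (1 : Fin 3)) (fun t => g b b' s t)
    have h3 : ∑ t : Fin 3, g b b' s (t + 2) = ∑ t, g b b' s t :=
      Equiv.sum_comp (Equiv.addRight (2 : Fin 3)) (fun t => g b b' s t)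
    rw [h2, h3]
    exact CharTwo.add_self_eq_zero _
  have hmain := par B Q hsymm hzero
  -- the inner sums are the cardinalities
  have hin : ∀ (χ : B → Fin 3) (b : B), ∑ b' ∈ univ.erase b, Q b b' (χ b) (χ b') =
      ((Nat.card {x : B × Fin 3 // x.1 ≠ b ∧ x.2 ≠ χ x.1 ∧ Btw pos b (χ b) (pos x)} : ℕ) :
        ZMod 2) := by
    intro χ b
    rw [Nat.card_eq_fintype_card, Fintype.card_subtype, card_filter, Nat.cast_sum,
      Fintype.sum_prod_type]
    rw [← sum_erase (s := univ) (a := b)]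
    · refine sum_congr rfl (fun b' hb' => ?_)
      have hbb : b' ≠ b := (mem_erase.1 hb').1
      refine sum_congr rfl (fun j _ => ?_)
      simp only [g, btw_iff, hbb, ne_eq, not_false_eq_true, true_and]
      by_cases h1 : j = χ b'
      · simp [h1]
      · by_cases h2 : bw (pos (b, χ b + 1)) (pos (b, χ b + 2)) (pos (b', j))
        · simp [h1, h2]
        · simp [h1, h2]
    · apply sum_eq_zero
      intro j _
      simp
  have hone : ∀ n : ℕ, (1 + (n : ZMod 2)) = if Even n then 1 else 0 := by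
    intro n
    by_cases h : Even n
    · rw [if_pos h, (ZMod.natCast_eq_zero_iff_even).2 h, add_zero]
    · rw [if_neg h, (ZMod.natCast_eq_one_iff_odd).2 (Nat.not_even_iff_odd.1 h)]
      decide
  have hprod : ∀ χ : B → Fin 3, ∏ b, (1 + ∑ b' ∈ univ.erase b, Q b b' (χ b) (χ b')) =
      if (∀ b, Even (Nat.card {x : B × Fin 3 // x.1 ≠ b ∧ x.2 ≠ χ x.1 ∧
        Btw pos b (χ b) (pos x)})) then 1 else 0 := by
    intro χ
    rw [prod_congr rfl (fun b _ => by rw [hin χ b, hone])]
    by_cases h : ∀ b, Even (Nat.card {x : B × Fin 3 // x.1 ≠ b ∧ x.2 ≠ χ x.1 ∧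
        Btw pos b (χ b) (pos x)})
    · rw [if_pos h]
      exact prod_eq_one (fun b _ => if_pos (h b))
    · rw [if_neg h]
      push Not at h
      obtain ⟨b, hb⟩ := h
      exact prod_eq_zero (mem_univ b) (if_neg (by simpa using hb))
  rw [sum_congr rfl (fun χ _ => hprod χ)] at hmain
  rw [← ZMod.natCast_eq_one_iff_odd, ← hmain, Nat.card_eq_fintype_card, Fintype.card_subtype,
    card_filter, Nat.cast_sum]
  refine sum_congr rfl (fun χ _ => ?_)
  split_ifs <;> simp

end Pool.Agent.H57.SC
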