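import Pool.Agent.H57.SC.Targets

set_option autoImplicit false

namespace Pool.Agent.H57.SC

open Finset

section
variable {B : Type} [Fintype B] [DecidableEq B]

lemma three_eq_one : (3 : ZMod 2) = 1 := by decide

/-- the shift of the value at one point -/
def shiftEquiv (b : B) (t : Fin 3) : (B → Fin 3) ≃ (B → Fin 3) where
  toFun χ := Function.update χ b (χ b + t)
  invFun χ := Function.update χ b (χ b - t)
  left_inv χ := by
    funext x
    by_cases h : x = b
    · subst h; simp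
    · simp [Function.update_of_ne h]
  right_inv χ := by
    funext x
    by_cases h : x = b
    · subst h; simp
    · simp [Function.update_of_ne h]

/-- a sum over all functions vanishes if summing over the value at one point vanishes -/
lemma sum_zero_of_update (F : (B → Fin 3) → ZMod 2) (b : B)
    (h : ∀ χ : B → Fin 3, ∑ s : Fin 3, F (Function.update χ b s) = 0) : ∑ χ, F χ = 0 := by
  have h1 : ∀ t : Fin 3, ∑ χ : B → Fin 3, F (Function.update χ b (χ b + t)) = ∑ χ, F χ := by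
    intro t
    exact Equiv.sum_comp (shiftEquiv b t) F
  have h2 : ∑ t : Fin 3, ∑ χ : B → Fin 3, F (Function.update χ b (χ b + t)) = 0 := by
    rw [sum_comm]
    refine sum_eq_zero (fun χ _ => ?_)
    rw [← h χ]
    exact Equiv.sum_comp (Equiv.addLeft (χ b)) (fun s => F (Function.update χ b s))
  have h3 : ∑ t : Fin 3, ∑ χ : B → Fin 3, F (Function.update χ b (χ b + t)) =
      3 * ∑ χ, F χ := by
    rw [sum_congr rfl (fun t _ => h1 t), sum_const, card_univ, Fintype.card_fin, nsmul_eq_mul]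
    norm_num
  rw [h3, three_eq_one, one_mul] at h2
  exact h2

/-- the matrix with ones on the diagonal -/
def TT (Q : B → B → Fin 3 → Fin 3 → ZMod 2) (b b' : B) (s t : Fin 3) : ZMod 2 :=
  if b = b' then 1 else Q b b' s t

/-- the weight of a function -/
def WT (Q : B → B → Fin 3 → Fin 3 → ZMod 2) (φ : B → B) : ZMod 2 :=
  ∑ χ : B → Fin 3, ∏ b, TT Q b (φ b) (χ b) (χ (φ b))

variable {Q : B → B → Fin 3 → Fin 3 → ZMod 2}

lemma total_eq : ∑ χ : B → Fin 3, ∏ b, (1 + ∑ b' ∈ univ.erase b, Q b b' (χ b) (χ b')) =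
    ∑ φ : B → B, WT Q φ := by
  unfold WT
  rw [sum_comm]
  refine sum_congr rfl (fun χ _ => ?_)
  have h1 : ∀ b : B, (1 + ∑ b' ∈ univ.erase b, Q b b' (χ b) (χ b')) =
      ∑ b' : B, TT Q b b' (χ b) (χ b') := by
    intro b
    rw [← add_sum_erase univ _ (mem_univ b)]
    congr 1
    · simp [TT]
    · refine sum_congr rfl (fun b' hb' => ?_)
      have : b ≠ b' := fun h => (mem_erase.1 hb').1 h.symm
      simp [TT, this]
  rw [prod_congr rfl (fun b _ => h1 b), prod_univ_sum, Fintype.piFinset_univ]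

lemma wt_zero_of_not_surj (hs : ∀ b b' s t, b ≠ b' → Q b b' s t = Q b' b t s)
    (h0 : ∀ b b' s, b ≠ b' → ∑ t, Q b b' s t = 0) (φ : B → B) (hφ : ¬ Function.Surjective φ) :
    WT Q φ = 0 := by
  unfold Function.Surjective at hφ
  push Not at hφ
  obtain ⟨b0, hb0⟩ := hφ
  apply sum_zero_of_update _ b0
  intro χ
  have hne : φ b0 ≠ b0 := hb0 b0
  have h1 : ∀ s, ∏ b, TT Q b (φ b) (Function.update χ b0 s b) (Function.update χ b0 s (φ b)) =
      TT Q b0 (φ b0) s (χ (φ b0)) * ∏ b ∈ univ.erase b0, TT Q b (φ b) (χ b) (χ (φ b)) := by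
    intro s
    rw [← mul_prod_erase univ _ (mem_univ b0)]
    congr 1
    · rw [Function.update_self, Function.update_of_ne hne]
    · refine prod_congr rfl (fun b hb => ?_)
      rw [Function.update_of_ne (mem_erase.1 hb).1, Function.update_of_ne (hb0 b)]
  rw [sum_congr rfl (fun s _ => h1 s), ← sum_mul]
  have h2 : ∑ s, TT Q b0 (φ b0) s (χ (φ b0)) = 0 := by
    rw [← h0 (φ b0) b0 (χ (φ b0)) hne]
    refine sum_congr rfl (fun s _ => ?_)
    rw [TT, if_neg (Ne.symm hne), hs b0 (φ b0) s (χ (φ b0)) (Ne.symm hne)]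
  rw [h2, zero_mul]

lemma tt_symm (hs : ∀ b b' s t, b ≠ b' → Q b b' s t = Q b' b t s) (b b' : B) (s t : Fin 3) :
    TT Q b b' s t = TT Q b' b t s := by
  unfold TT
  by_cases h : b = b'
  · rw [if_pos h, if_pos h.symm]
  · rw [if_neg h, if_neg (Ne.symm h), hs b b' s t h]

lemma wt_inv (hs : ∀ b b' s t, b ≠ b' → Q b b' s t = Q b' b t s) (σ : Equiv.Perm B) :
    WT Q (σ⁻¹ : Equiv.Perm B) = WT Q σ := by
  unfold WT
  refine sum_congr rfl (fun χ _ => ?_)
  rw [← Equiv.prod_comp σ]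
  refine prod_congr rfl (fun b _ => ?_)
  have : (σ⁻¹ : Equiv.Perm B) (σ b) = b := by simp
  rw [this, tt_symm hs]

lemma sq_eq (x : ZMod 2) : x * x = x := by revert x; decide

lemma wt_involution (hs : ∀ b b' s t, b ≠ b' → Q b b' s t = Q b' b t s)
    (h0 : ∀ b b' s, b ≠ b' → ∑ t, Q b b' s t = 0) (σ : Equiv.Perm B) (h1 : σ⁻¹ = σ)
    (h2 : σ ≠ 1) : WT Q σ = 0 := by
  obtain ⟨b, hb⟩ : ∃ b, σ b ≠ b := by
    by_contra hcon
    push Not at hcon
    exact h2 (Equiv.ext hcon)
  have hinv : ∀ x, σ (σ x) = x := by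
    intro x
    have h : σ⁻¹ (σ x) = x := by simp
    rwa [h1] at h
  have hc : σ (σ b) = b := hinv b
  apply sum_zero_of_update _ b
  intro χ
  have hcb : σ b ∈ univ.erase b := mem_erase.2 ⟨hb, mem_univ _⟩
  have h3 : ∀ s, ∏ x, TT Q x (σ x) (Function.update χ b s x) (Function.update χ b s (σ x)) =
      Q b (σ b) s (χ (σ b)) * ∏ x ∈ (univ.erase b).erase (σ b), TT Q x (σ x) (χ x) (χ (σ x)) := by
    intro s
    rw [← mul_prod_erase univ _ (mem_univ b), ← mul_prod_erase _ _ hcb, ← mul_assoc]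
    congr 1
    · rw [hc, Function.update_self, Function.update_of_ne hb, TT, TT, if_neg (Ne.symm hb),
        if_neg hb, ← hs b (σ b) s (χ (σ b)) (Ne.symm hb), sq_eq]
    · refine prod_congr rfl (fun x hx => ?_)
      have hx1 : x ≠ b := (mem_erase.1 (mem_erase.1 hx).2).1
      have hx2 : x ≠ σ b := (mem_erase.1 hx).1
      have hx3 : σ x ≠ b := by
        intro h
        apply hx2
        rw [← h, hinv]
      rw [Function.update_of_ne hx1, Function.update_of_ne hx3]
  rw [sum_congr rfl (fun s _ => h3 s), ← sum_mul]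
  have h4 : ∑ s, Q b (σ b) s (χ (σ b)) = 0 := by
    rw [← h0 (σ b) b (χ (σ b)) hb]
    exact sum_congr rfl (fun s _ => hs b (σ b) s (χ (σ b)) (Ne.symm hb))
  rw [h4, zero_mul]

lemma wt_one : WT Q (1 : Equiv.Perm B) = 1 := by
  unfold WT
  have h1 : ∀ χ : B → Fin 3, ∏ b, TT Q b ((1 : Equiv.Perm B) b) (χ b) (χ ((1 : Equiv.Perm B) b)) =
      1 := by
    intro χ
    refine prod_eq_one (fun b _ => ?_)
    simp [TT]
  rw [sum_congr rfl (fun χ _ => h1 χ), sum_const, card_univ, Fintype.card_fun, Fintype.card_fin,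
    nsmul_eq_mul, mul_one, Nat.cast_pow]
  have : ((3 : ℕ) : ZMod 2) = 1 := by decide
  rw [this, one_pow]

lemma sum_perm (hs : ∀ b b' s t, b ≠ b' → Q b b' s t = Q b' b t s)
    (h0 : ∀ b b' s, b ≠ b' → ∑ t, Q b b' s t = 0) : ∑ σ : Equiv.Perm B, WT Q σ = 1 := by
  rw [← add_sum_erase univ _ (mem_univ (1 : Equiv.Perm B)), wt_one]
  have : ∑ σ ∈ univ.erase (1 : Equiv.Perm B), WT Q σ = 0 := by
    refine sum_involution (fun σ _ => σ⁻¹) ?_ ?_ ?_ ?_
    · intro σ _
      rw [wt_inv hs]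
      exact CharTwo.add_self_eq_zero _
    · intro σ hσ hne heq
      exact hne (wt_involution hs h0 σ heq (mem_erase.1 hσ).1)
    · intro σ hσ
      exact mem_erase.2 ⟨inv_ne_one.2 (mem_erase.1 hσ).1, mem_univ _⟩
    · intro σ _
      exact inv_inv σ
  rw [this, add_zero]

end

theorem pf_par : T_PAR := by
  intro B _ _ Q hs h0
  rw [total_eq, ← sum_perm hs h0]
  symm
  refine sum_bij_ne_zero (fun σ _ _ => (σ : B → B)) ?_ ?_ ?_ ?_
  · intro σ _ _; exact mem_univ _
  · intro σ _ _ τ _ _ h; exact Equiv.coe_fn_injective h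
  · intro φ _ hφ
    have hsurj : Function.Surjective φ := by
      by_contra hcon
      exact hφ (wt_zero_of_not_surj hs h0 φ hcon)
    refine ⟨Equiv.ofBijective φ ⟨Finite.injective_iff_surjective.2 hsurj, hsurj⟩, mem_univ _, ?_, rfl⟩
    exact hφ
  · intro σ _ _; rfl

end Pool.Agent.H57.SC
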