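import Pool.Agent.H57.SC.SDefs
import Pool.Agent.H98.S4.Targets

set_option autoImplicit false

namespace Pool.Agent.H57.SC.S

open Finset

lemma deg2_of_maxDegree {V : Type} [Fintype V] (G : SimpleGraph V) [DecidableRel G.Adj]
    (h : G.maxDegree ≤ 2) : Pool.Agent.H98.S4.Deg2 G := by
  classical
  intro x a b c ha hb hc
  by_contra hcon
  push Not at hcon
  obtain ⟨h1, h2, h3⟩ := hcon
  have hd : G.degree x ≤ 2 := (G.degree_le_maxDegree x).trans h
  have : 2 < (G.neighborFinset x).card := by
    rw [Finset.two_lt_card_iff]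
    exact ⟨a, b, c, by simpa using ha, by simpa using hb, by simpa using hc, h1, h2, h3⟩
  rw [SimpleGraph.card_neighborFinset_eq_degree] at this
  omega

/-- graphs of maximum degree at most two are strongly 4-colourable -/
theorem sc_four (ex : Pool.Agent.H98.S4.T_EX) {V : Type} [Fintype V] (G : SimpleGraph V)
    [DecidableRel G.Adj] (h : G.maxDegree ≤ 2) : StronglyColourable G 4 := by
  classical
  intro f hf
  have hdeg : Pool.Agent.H98.S4.Deg2 (padded G (pad (Fintype.card V) 4)) := by
    rintro x a b c ⟨u, v, hx, ha, h1⟩ ⟨u', v', hx', hb, h2⟩ ⟨u'', v'', hx'', hc, h3⟩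
    have e1 : u = u' := Sum.inl.inj (hx.symm.trans hx')
    have e2 : u = u'' := Sum.inl.inj (hx.symm.trans hx'')
    subst e1; subst e2
    rcases deg2_of_maxDegree G h u v v' v'' h1 h2 h3 with h' | h' | h'
    · left; rw [ha, hb, h']
    · right; left; rw [ha, hc, h']
    · right; right; rw [hb, hc, h']
  have hblk : Pool.Agent.H98.S4.Blk4 f := by
    intro v
    have := hf (f v)
    rw [Nat.card_eq_fintype_card, Fintype.card_subtype] at this
    exact this
  obtain ⟨c, hc1, hc2⟩ := ex _ _ (padded G (pad (Fintype.card V) 4)) f hdeg hblk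
  refine ⟨SimpleGraph.Coloring.mk c ?_⟩
  rintro x y (hxy | hxy)
  · exact hc1 x y hxy
  · exact hc2 x y hxy.2 hxy.1

/-- the final theorem -/
theorem final (ex : Pool.Agent.H98.S4.T_EX) (V : Type) [Fintype V] (G : SimpleGraph V)
    [DecidableRel G.Adj] (h : G.maxDegree = 2) :
    StronglyColourable G (2 * G.maxDegree) ∧ schi G ≤ 2 * G.maxDegree := by
  have h4 : StronglyColourable G (2 * G.maxDegree) := by
    rw [h]
    exact sc_four ex G h.le
  exact ⟨h4, Nat.sInf_le ⟨by rw [h]; norm_num, h4⟩⟩

end Pool.Agent.H57.SC.S
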