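import Mathlib

/-! MP_eb32d7_co: strong k-colourability and the strong chromatic number, exactly as in the problem. -/

set_option autoImplicit false

namespace Pool.Agent.H57.SC.S

/-- `⌈n / k⌉` -/
def blocks (n k : ℕ) : ℕ := (n + k - 1) / k

/-- the number of isolated vertices which are added: `k * ⌈n / k⌉ - n` -/
def pad (n k : ℕ) : ℕ := k * blocks n k - n

/-- the graph `G` together with `m` new isolated vertices -/
def padded {V : Type} (G : SimpleGraph V) (m : ℕ) : SimpleGraph (V ⊕ Fin m) where
  Adj x y := ∃ u v, x = Sum.inl u ∧ y = Sum.inl v ∧ G.Adj u v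
  symm := ⟨by
    rintro x y ⟨u, v, hx, hy, h⟩
    exact ⟨v, u, hy, hx, h.symm⟩⟩
  loopless := ⟨by
    rintro x ⟨u, v, hx, hy, h⟩
    rw [hx] at hy
    exact h.ne (Sum.inl.inj hy)⟩

/-- the union of the complete graphs on the blocks (fibres) of `f` -/
def blockGraph {W ι : Type} (f : W → ι) : SimpleGraph W where
  Adj x y := x ≠ y ∧ f x = f y
  symm := ⟨fun _ _ h => ⟨h.1.symm, h.2.symm⟩⟩
  loopless := ⟨fun _ h => h.1 rfl⟩

/-- `G` is strongly `k`-colourable: add `k * ⌈n / k⌉ - n` isolated vertices; for every partition of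
the enlarged vertex set into `⌈n / k⌉` blocks of size `k` (the fibres of `f`) the edge-union of `G`
with the complete graphs on the blocks is properly `k`-colourable. -/
def StronglyColourable {V : Type} [Fintype V] (G : SimpleGraph V) (k : ℕ) : Prop :=
  ∀ f : V ⊕ Fin (pad (Fintype.card V) k) → Fin (blocks (Fintype.card V) k),
    (∀ i, Nat.card {x // f x = i} = k) →
    (padded G (pad (Fintype.card V) k) ⊔ blockGraph f).Colorable k

/-- the strong chromatic number: the least `k ≥ 1` such that `G` is strongly `k`-colourable -/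
noncomputable def schi {V : Type} [Fintype V] (G : SimpleGraph V) : ℕ :=
  sInf {k | 1 ≤ k ∧ StronglyColourable G k}

end Pool.Agent.H57.SC.S
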