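import Mathlib

/-! MP_eb32d7_co, strong colouring for maximum degree two: targets of the main lemma (clean doubles)
and of the Fleischner-Stiebitz theorem for linear forests. -/

set_option autoImplicit false

namespace Pool.Agent.H57.SC

open Finset

/-! ### Fleischner-Stiebitz by parity -/

/-- PAR: the parity lemma. -/
def T_PAR : Prop :=
  ∀ (B : Type) [Fintype B] [DecidableEq B] (Q : B → B → Fin 3 → Fin 3 → ZMod 2),
    (∀ b b' s t, b ≠ b' → Q b b' s t = Q b' b t s) →
    (∀ b b' s, b ≠ b' → ∑ t, Q b b' s t = 0) →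
    ∑ χ : B → Fin 3, ∏ b, (1 + ∑ b' ∈ univ.erase b, Q b b' (χ b) (χ b')) = 1

/-- x lies strictly between the two points of the triple b different from the point s -/
def Btw {B : Type} (pos : B × Fin 3 → ℕ) (b : B) (s : Fin 3) (x : ℕ) : Prop :=
  ∃ j k : Fin 3, j ≠ s ∧ k ≠ s ∧ pos (b, j) < x ∧ x < pos (b, k)

/-- CH: the number of choices of one through point in every triple, such that an even number of the
chosen turning points of the other triples lies between the two turning points of every triple, is odd. -/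
def T_CH : Prop :=
  ∀ (B : Type) [Fintype B] [DecidableEq B] (pos : B × Fin 3 → ℕ), Function.Injective pos →
    Odd (Nat.card {χ : B → Fin 3 //
      ∀ b, Even (Nat.card {x : B × Fin 3 // x.1 ≠ b ∧ x.2 ≠ χ x.1 ∧ Btw pos b (χ b) (pos x)})})

/-- exponent of the point p of the path 0,...,k for the orientation o of the edges
(edge i joins i and i+1; true: it counts for i+1, false: it counts for i; the point 0 gets one more) -/
def hh (k : ℕ) (o : ℕ → Bool) (p : ℕ) : ℕ :=
  (if p = 0 then 1 else if o (p - 1) = true then 1 else 0) +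
    (if p < k then (if o p = false then 1 else 0) else 0)

/-- extend a Boolean function on the edges by false -/
def ext (k : ℕ) (o : Fin k → Bool) (i : ℕ) : Bool := if h : i < k then o ⟨i, h⟩ else false

/-- all triples have exponents 0, 1, 2 in some order -/
def Good {B : Type} (k : ℕ) (pos : B × Fin 3 → ℕ) (o : Fin k → Bool) : Prop :=
  ∀ b, Function.Injective (fun j : Fin 3 => hh k (ext k o) (pos (b, j)))

/-- OR: the number of good orientations of the path is odd -/
def T_OR : Prop :=
  ∀ (B : Type) [Fintype B] [DecidableEq B] (k : ℕ) (pos : B × Fin 3 → ℕ), Function.Injective pos →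
    (∀ p, p ≤ k ↔ ∃ x, pos x = p) → Odd (Nat.card {o : Fin k → Bool // Good k pos o})

/-- ALG: an odd number of good orientations gives a colouring -/
def T_ALG : Prop :=
  ∀ (B : Type) [Fintype B] [DecidableEq B] (k : ℕ) (pos : B × Fin 3 → ℕ), Function.Injective pos →
    (∀ p, p ≤ k ↔ ∃ x, pos x = p) → Odd (Nat.card {o : Fin k → Bool // Good k pos o}) →
    ∃ c : B × Fin 3 → Fin 3, (∀ b, Function.Injective (fun j => c (b, j))) ∧
      ∀ x y, pos y = pos x + 1 → c x ≠ c y

/-- LO: a graph without a nonempty set of vertices having two neighbours in the set has a linear order -/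
def T_LO : Prop :=
  ∀ (W : Type) [Fintype W] [DecidableEq W] (F : SimpleGraph W) [DecidableRel F.Adj],
    (∀ v, F.degree v ≤ 2) →
    (∀ X : Finset W, X.Nonempty → ∃ v ∈ X, (X.filter (F.Adj v)).card ≤ 1) →
    ∃ e : W ≃ Fin (Fintype.card W), ∀ u v, F.Adj u v →
      (e u : ℕ) = (e v : ℕ) + 1 ∨ (e v : ℕ) = (e u : ℕ) + 1

/-- FS: Fleischner-Stiebitz for linear forests -/
def T_FS : Prop :=
  ∀ (W I : Type) [Fintype W] [DecidableEq W] [Fintype I] [DecidableEq I] (F : SimpleGraph W)
    [DecidableRel F.Adj] (t : W → I),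
    (∀ i, (univ.filter (fun w => t w = i)).card = 3) →
    (∀ v, F.degree v ≤ 2) →
    (∀ X : Finset W, X.Nonempty → ∃ v ∈ X, (X.filter (F.Adj v)).card ≤ 1) →
    ∃ c : W → Fin 3, (∀ u v, F.Adj u v → c u ≠ c v) ∧ (∀ u v, t u = t v → c u = c v → u = v)

/-! ### The main lemma (clean doubles) -/

section ML

variable {W C B : Type}

/-- the combinatorial structure: cycles C, vertices W, blocks B; adj = neighbours along the cycles -/
structure Sys [Fintype W] [DecidableEq B] (cyc : W → C) (blk : W → B) (adj : W → W → Prop) : Prop where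
  symm : ∀ u v, adj u v → adj v u
  irr : ∀ u, ¬ adj u u
  cy : ∀ u v, adj u v → cyc u = cyc v
  deg : ∀ v, ∃ a b, a ≠ b ∧ ∀ u, adj v u ↔ u = a ∨ u = b
  dist : ∀ u v, u ≠ v → (adj u v ∨ ∃ m, adj m u ∧ adj m v) → blk u ≠ blk v
  four : ∀ b, (univ.filter (fun w => blk w = b)).card ≤ 4

/-- the set P of marked vertices of one cycle allows the centre x -/
def OKP (adj : W → W → Prop) (P : W → Prop) (x : W) : Prop :=
  (∀ p, P p → x = p ∨ adj x p) ∧ ∀ p q, P p → P q → p ≠ q → x = p ∨ x = q

/-- marked vertices of the cycle c: those in blocks of Q -/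
def Mk (cyc : W → C) (blk : W → B) (Q : Finset B) (c : C) (w : W) : Prop := cyc w = c ∧ blk w ∈ Q

/-- allowed centres of c with respect to Q -/
def Al (cyc : W → C) (blk : W → B) (adj : W → W → Prop) (Q : Finset B) (c : C) (x : W) : Prop :=
  cyc x = c ∧ OKP adj (Mk cyc blk Q c) x

/-- usable vertices with respect to Q and the centres f -/
def Us (cyc : W → C) (blk : W → B) (adj : W → W → Prop) (Q : Finset B) (f : C → W) (w : W) : Prop :=
  OKP adj (fun p => Mk cyc blk Q (cyc w) p ∨ p = w) w ∧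
    OKP adj (fun p => Mk cyc blk Q (cyc w) p ∨ p = w) (f (cyc w))

/-- number of centres in the block b -/
def cn [Fintype C] [DecidableEq B] (blk : W → B) (f : C → W) (b : B) : ℕ :=
  (univ.filter (fun c => blk (f c) = b)).card

/-- demand of a block -/
def dem [DecidableEq B] (Q : Finset B) (b : B) : ℕ := if b ∈ Q then 2 else 1

/-- the state of the induction -/
structure St [Fintype C] [DecidableEq B] (cyc : W → C) (blk : W → B) (adj : W → W → Prop)
    (Q : Finset B) (f : C → W) : Prop where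
  al : ∀ c, Al cyc blk adj Q c (f c)
  dm : ∀ b, dem Q b ≤ cn blk f b

/-- the cycles with an allowed centre in a block of Y -/
noncomputable def Cov [Fintype C] (cyc : W → C) (blk : W → B) (adj : W → W → Prop) (Q Y : Finset B) :
    Finset C :=
  open scoped Classical in univ.filter (fun c => ∃ x, Al cyc blk adj Q c x ∧ blk x ∈ Y)

end ML

/-- HL: the Hall step -/
def T_HL : Prop :=
  ∀ (W C B : Type) [Fintype W] [DecidableEq W] [Fintype C] [DecidableEq C] [Fintype B] [DecidableEq B]
    (cyc : W → C) (blk : W → B) (adj : W → W → Prop) (Q : Finset B) (f : C → W),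
    (∀ c, Al cyc blk adj Q c (f c)) →
    (∀ Y : Finset B, ∑ b ∈ Y, dem Q b ≤ (Cov cyc blk adj Q Y).card) →
    ∃ f', St cyc blk adj Q f'

/-- ZZ: the largest tight set -/
def T_ZZ : Prop :=
  ∀ (W C B : Type) [Fintype W] [DecidableEq W] [Fintype C] [DecidableEq C] [Fintype B] [DecidableEq B]
    (cyc : W → C) (blk : W → B) (adj : W → W → Prop) (Q : Finset B) (f : C → W),
    St cyc blk adj Q f →
    ∃ Z : Finset B, (∀ Y, (Cov cyc blk adj Q Y).card = ∑ b ∈ Y, dem Q b → Y ⊆ Z) ∧
      (∀ c x, Al cyc blk adj Q c x → blk x ∈ Z → blk (f c) ∈ Z) ∧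
      (∀ b ∈ Z, cn blk f b = dem Q b)

/-- UL: usable vertices are allowed and close to the centre -/
def T_UL : Prop :=
  ∀ (W C B : Type) [Fintype W] [DecidableEq W] [Fintype C] [DecidableEq C] [Fintype B] [DecidableEq B]
    (cyc : W → C) (blk : W → B) (adj : W → W → Prop), Sys cyc blk adj →
    ∀ (Q : Finset B) (f : C → W), St cyc blk adj Q f →
    (∀ w, Us cyc blk adj Q f w → Al cyc blk adj Q (cyc w) w) ∧
    (∀ w w', Us cyc blk adj Q f w → Us cyc blk adj Q f w' → w ≠ w' → cyc w = cyc w' → blk w ≠ blk w') ∧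
    (∀ w w', Al cyc blk adj Q (cyc w) (f (cyc w)) → blk w ∈ Q → blk w' ∈ Q → cyc w = cyc w' →
      w ≠ f (cyc w) → w' ≠ f (cyc w) → w = w')

/-- US: usable vertices of one cycle -/
def T_US : Prop :=
  ∀ (W C B : Type) [Fintype W] [DecidableEq W] [Fintype C] [DecidableEq C] [Fintype B] [DecidableEq B]
    (cyc : W → C) (blk : W → B) (adj : W → W → Prop), Sys cyc blk adj →
    ∀ (Q : Finset B) (f : C → W) (c : C), Al cyc blk adj Q c (f c) →
    2 ≤ Nat.card {w // cyc w = c ∧ Us cyc blk adj Q f w} ∧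
    ((∀ w, cyc w = c → blk w ∈ Q → w = f c) → 3 ≤ Nat.card {w // cyc w = c ∧ Us cyc blk adj Q f w})

/-- GB: a good block -/
def T_GB : Prop :=
  ∀ (W C B : Type) [Fintype W] [DecidableEq W] [Fintype C] [DecidableEq C] [Fintype B] [DecidableEq B]
    (cyc : W → C) (blk : W → B) (adj : W → W → Prop), Sys cyc blk adj →
    ∀ (Q Z : Finset B) (f : C → W) (d : ℕ), St cyc blk adj Q f →
    Fintype.card C = Fintype.card B + d → Q.card < d →
    (∀ c x, Al cyc blk adj Q c x → blk x ∈ Z → blk (f c) ∈ Z) →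
    (∀ b ∈ Z, cn blk f b = dem Q b) →
    ∃ b, b ∉ Z ∧ b ∉ Q ∧ (univ.filter (fun w => blk w = b)).card = 4 ∧
      ∀ w, blk w = b → Us cyc blk adj Q f w

/-- ST: one step of the induction -/
def T_ST : Prop :=
  ∀ (W C B : Type) [Fintype W] [DecidableEq W] [Fintype C] [DecidableEq C] [Fintype B] [DecidableEq B]
    (cyc : W → C) (blk : W → B) (adj : W → W → Prop), Sys cyc blk adj →
    ∀ (Q : Finset B) (f : C → W) (d : ℕ), St cyc blk adj Q f →
    Fintype.card C = Fintype.card B + d → Q.card < d →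
    ∃ b, b ∉ Q ∧ (univ.filter (fun w => blk w = b)).card = 4 ∧
      ∃ f', St cyc blk adj (insert b Q) f'

/-- ML: the main lemma -/
def T_ML : Prop :=
  ∀ (W C B : Type) [Fintype W] [DecidableEq W] [Fintype C] [DecidableEq C] [Fintype B] [DecidableEq B]
    (cyc : W → C) (blk : W → B) (adj : W → W → Prop), Sys cyc blk adj →
    ∀ (d : ℕ) (m0 : C → W), Fintype.card C = Fintype.card B + d → (∀ c, cyc (m0 c) = c) →
    (∀ b, ∃ c, blk (m0 c) = b) →
    ∃ (m : C → W) (Q : Finset B), (∀ c, cyc (m c) = c) ∧ Q.card = d ∧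
      (∀ b ∈ Q, (univ.filter (fun c => blk (m c) = b)).card = 2) ∧
      (∀ b, b ∉ Q → (univ.filter (fun c => blk (m c) = b)).card = 1) ∧
      (∀ b ∈ Q, (univ.filter (fun w => blk w = b)).card = 4) ∧
      (∀ w, blk w ∈ Q → w = m (cyc w) ∨ adj (m (cyc w)) w) ∧
      (∀ w w', blk w ∈ Q → blk w' ∈ Q → cyc w = cyc w' → w ≠ m (cyc w) → w' ≠ m (cyc w) → w = w')

end Pool.Agent.H57.SC
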